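import Pool.Agent.Lib.PerE.Codim

set_option autoImplicit false

/-!
# Finite dimensional sections of periodic Lie algebras are abelian
-/

namespace PerH

open Module PerE

universe u v w

section Basic

variable {p : ℕ} {F : Type u} [Field F] {L : Type v} [LieRing L] [LieAlgebra F L]

/-- a subalgebra closed under `p`-th powers -/
theorem per_sub (h : Per p F L) (Q : LieSubalgebra F L)
    (hQ : ∀ u ∈ Q, ∀ v : L, (LieAlgebra.ad F L u) ^ p = LieAlgebra.ad F L v → v ∈ Q) :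
    Per p F Q := by
  constructor
  · intro x
    obtain ⟨y, hy⟩ := h.cl (x : L)
    refine ⟨⟨y, hQ x x.2 y hy⟩, ?_⟩
    ext z
    rw [ad_pow_coe, hy]
    rfl
  · intro x
    obtain ⟨m, hm, hx⟩ := h.per (x : L)
    refine ⟨m, hm, ?_⟩
    ext z
    rw [ad_pow_coe, hx]
    rfl

theorem mk_pow (I : LieIdeal F L) (x : L) (k : ℕ) (z : L) :
    ((LieAlgebra.ad F (L ⧸ I) (LieSubmodule.Quotient.mk (N := I) x)) ^ k)
        (LieSubmodule.Quotient.mk (N := I) z)
      = LieSubmodule.Quotient.mk (N := I) (((LieAlgebra.ad F L x) ^ k) z) := by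
  induction k generalizing z with
  | zero => simp
  | succ k ih =>
    rw [pow_succ, pow_succ, Module.End.mul_apply, Module.End.mul_apply, LieAlgebra.ad_apply,
      LieAlgebra.ad_apply, ← LieSubmodule.Quotient.mk_bracket, ih]

/-- a quotient by an ideal -/
theorem per_quot' (h : Per p F L) (I : LieIdeal F L) : Per p F (L ⧸ I) := by
  constructor
  · intro x
    obtain ⟨x, rfl⟩ := LieSubmodule.Quotient.surjective_mk' I x
    obtain ⟨y, hy⟩ := h.cl x
    refine ⟨LieSubmodule.Quotient.mk (N := I) y, ?_⟩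
    apply LinearMap.ext
    intro z
    obtain ⟨z, rfl⟩ := LieSubmodule.Quotient.surjective_mk' I z
    change ((LieAlgebra.ad F (L ⧸ I) (LieSubmodule.Quotient.mk (N := I) x)) ^ p)
        (LieSubmodule.Quotient.mk (N := I) z) = _
    rw [mk_pow, hy]
    rfl
  · intro x
    obtain ⟨x, rfl⟩ := LieSubmodule.Quotient.surjective_mk' I x
    obtain ⟨m, hm, hpm⟩ := h.per x
    refine ⟨m, hm, ?_⟩
    apply LinearMap.ext
    intro z
    obtain ⟨z, rfl⟩ := LieSubmodule.Quotient.surjective_mk' I z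
    change ((LieAlgebra.ad F (L ⧸ I) (LieSubmodule.Quotient.mk (N := I) x)) ^ p ^ m)
        (LieSubmodule.Quotient.mk (N := I) z) = _
    rw [mk_pow, hpm]
    rfl

/-- the elements whose inner derivation preserves `P` and `K` -/
def nrm (P K : Submodule F L) : LieSubalgebra F L where
  carrier := {u | (∀ z ∈ P, ⁅u, z⁆ ∈ P) ∧ ∀ z ∈ K, ⁅u, z⁆ ∈ K}
  add_mem' := by
    rintro a b ⟨ha1, ha2⟩ ⟨hb1, hb2⟩
    refine ⟨fun z hz => ?_, fun z hz => ?_⟩
    · rw [add_lie]
      exact P.add_mem (ha1 z hz) (hb1 z hz)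
    · rw [add_lie]
      exact K.add_mem (ha2 z hz) (hb2 z hz)
  zero_mem' := by
    refine ⟨fun z _ => ?_, fun z _ => ?_⟩
    · rw [zero_lie]
      exact P.zero_mem
    · rw [zero_lie]
      exact K.zero_mem
  smul_mem' := by
    rintro c a ⟨ha1, ha2⟩
    refine ⟨fun z hz => ?_, fun z hz => ?_⟩
    · rw [smul_lie]
      exact P.smul_mem c (ha1 z hz)
    · rw [smul_lie]
      exact K.smul_mem c (ha2 z hz)
  lie_mem' := by
    rintro a b ⟨ha1, ha2⟩ ⟨hb1, hb2⟩
    refine ⟨fun z hz => ?_, fun z hz => ?_⟩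
    · rw [lie_lie]
      exact P.sub_mem (ha1 _ (hb1 z hz)) (hb1 _ (ha1 z hz))
    · rw [lie_lie]
      exact K.sub_mem (ha2 _ (hb2 z hz)) (hb2 _ (ha2 z hz))

theorem mem_nrm {P K : Submodule F L} {u : L} :
    u ∈ nrm P K ↔ (∀ z ∈ P, ⁅u, z⁆ ∈ P) ∧ ∀ z ∈ K, ⁅u, z⁆ ∈ K := Iff.rfl

theorem pow_mem (P : Submodule F L) (u : L) (hu : ∀ z ∈ P, ⁅u, z⁆ ∈ P) (k : ℕ) :
    ∀ z ∈ P, ((LieAlgebra.ad F L u) ^ k) z ∈ P := by
  induction k with
  | zero =>
    intro z hz
    simpa using hz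
  | succ k ih =>
    intro z hz
    rw [pow_succ, Module.End.mul_apply]
    exact ih _ (hu z hz)

theorem per_nrm (h : Per p F L) (P K : Submodule F L) : Per p F (nrm P K) := by
  refine per_sub h _ fun u hu v hv => ?_
  obtain ⟨hu1, hu2⟩ := mem_nrm.1 hu
  refine mem_nrm.2 ⟨fun z hz => ?_, fun z hz => ?_⟩
  · have := pow_mem P u hu1 p z hz
    rw [hv] at this
    exact this
  · have := pow_mem K u hu2 p z hz
    rw [hv] at this
    exact this

/-- the kernel of the action of the normaliser on `(P + K) / K` -/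
def kr (P K : Submodule F L) : LieIdeal F (nrm P K) where
  carrier := {u | ∀ z ∈ P, ⁅(u : L), z⁆ ∈ K}
  add_mem' := by
    intro a b ha hb z hz
    change ⁅(a : L) + (b : L), z⁆ ∈ K
    rw [add_lie]
    exact K.add_mem (ha z hz) (hb z hz)
  zero_mem' := by
    intro z _
    change ⁅(0 : L), z⁆ ∈ K
    rw [zero_lie]
    exact K.zero_mem
  smul_mem' := by
    intro c a ha z hz
    change ⁅c • (a : L), z⁆ ∈ K
    rw [smul_lie]
    exact K.smul_mem c (ha z hz)
  lie_mem := by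
    intro u j hj z hz
    change ⁅⁅(u : L), (j : L)⁆, z⁆ ∈ K
    rw [lie_lie]
    exact K.sub_mem ((mem_nrm.1 u.2).2 _ (hj z hz)) (hj _ ((mem_nrm.1 u.2).1 z hz))

theorem mem_kr {P K : Submodule F L} {u : nrm P K} :
    u ∈ kr P K ↔ ∀ z ∈ P, ⁅(u : L), z⁆ ∈ K := Iff.rfl

/-- the action of the normaliser on `(P + K) / K` -/
noncomputable def act (P K : Submodule F L) :
    nrm P K →ₗ[F] (P.map K.mkQ →ₗ[F] P.map K.mkQ) where
  toFun u := (K.mapQ K (LieAlgebra.ad F L (u : L)) (fun z hz => (mem_nrm.1 u.2).2 z hz)).restrict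
    (by
      rintro _ ⟨z, hz, rfl⟩
      exact ⟨⁅(u : L), z⁆, (mem_nrm.1 u.2).1 z hz, rfl⟩)
  map_add' := by
    intro u v
    apply LinearMap.ext
    rintro ⟨_, z, hz, rfl⟩
    apply Subtype.ext
    change K.mkQ ⁅(u : L) + (v : L), z⁆ = K.mkQ ⁅(u : L), z⁆ + K.mkQ ⁅(v : L), z⁆
    rw [add_lie, map_add]
  map_smul' := by
    intro c u
    apply LinearMap.ext
    rintro ⟨_, z, hz, rfl⟩
    apply Subtype.ext
    change K.mkQ ⁅c • (u : L), z⁆ = c • K.mkQ ⁅(u : L), z⁆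
    rw [smul_lie, map_smul]

theorem ker_act (P K : Submodule F L) : LinearMap.ker (act P K) = (kr P K).toSubmodule := by
  ext u
  constructor
  · intro hu z hz
    have h1 := LinearMap.congr_fun (LinearMap.mem_ker.1 hu) ⟨K.mkQ z, z, hz, rfl⟩
    have h2 : K.mkQ ⁅(u : L), z⁆ = 0 := congrArg Subtype.val h1
    exact (Submodule.Quotient.mk_eq_zero K).1 h2
  · intro hu
    rw [LinearMap.mem_ker]
    apply LinearMap.ext
    rintro ⟨_, z, hz, rfl⟩
    apply Subtype.ext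
    change K.mkQ ⁅(u : L), z⁆ = 0
    exact (Submodule.Quotient.mk_eq_zero K).2 (hu z hz)

theorem fd_ker {V : Type*} {W : Type*} [AddCommGroup V] [Module F V] [AddCommGroup W] [Module F W]
    (hW : FiniteDimensional F W) (f : V →ₗ[F] W) : FiniteDimensional F (V ⧸ LinearMap.ker f) := by
  have h2 : FiniteDimensional F (LinearMap.range f) := inferInstance
  exact LinearEquiv.finiteDimensional f.quotKerEquivRange.symm

theorem fd_end {V : Type*} [AddCommGroup V] [Module F V] (hV : FiniteDimensional F V) :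
    FiniteDimensional F (V →ₗ[F] V) := inferInstance

theorem fd_quot (P K : Submodule F L) (hfin : FiniteDimensional F (P.map K.mkQ)) :
    FiniteDimensional F (nrm P K ⧸ (kr P K).toSubmodule) := by
  rw [← ker_act]
  exact fd_ker (fd_end hfin) (act P K)

end Basic

variable {p : ℕ} [Fact p.Prime] {F : Type u} [Field F] [CharP F p] {L : Type v} [LieRing L]
  [LieAlgebra F L]

/-- finite dimensional sections are abelian -/
theorem core (h : Per p F L) (P : LieSubalgebra F L) (K : Submodule F L)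
    (hK : ∀ u ∈ P, ∀ v ∈ K, ⁅u, v⁆ ∈ K)
    (hfin : FiniteDimensional F (P.toSubmodule.map K.mkQ)) :
    ∀ x ∈ P, ∀ y ∈ P, ⁅x, y⁆ ∈ K := by
  have hPQ : ∀ u ∈ P, u ∈ nrm P.toSubmodule K := fun u hu =>
    mem_nrm.2 ⟨fun z hz => P.lie_mem hu hz, hK u hu⟩
  have hper : Per p F (nrm P.toSubmodule K ⧸ kr P.toSubmodule K) := per_quot' (per_nrm h _ _) _
  have hfd : FiniteDimensional F (nrm P.toSubmodule K ⧸ kr P.toSubmodule K) :=
    fd_quot P.toSubmodule K hfin
  have hab := one_cent hper 0 inferInstance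
  have h1 : ∀ x ∈ P, ∀ y ∈ P, ∀ z ∈ P, ⁅⁅x, y⁆, z⁆ ∈ K := by
    intro x hx y hy z hz
    have h2 := hab (LieSubmodule.Quotient.mk (N := kr P.toSubmodule K) ⟨x, hPQ x hx⟩)
      (LieSubmodule.Quotient.mk (N := kr P.toSubmodule K) ⟨y, hPQ y hy⟩)
    rw [← LieSubmodule.Quotient.mk_bracket, LieSubmodule.Quotient.mk_eq_zero'] at h2
    exact mem_kr.1 h2 z hz
  intro x hx y hy
  obtain ⟨m, hm, hxm⟩ := h.per x
  obtain ⟨n, hn⟩ : ∃ n, p ^ m = n + 2 := by
    have h2 : 2 ≤ p := (Fact.out : p.Prime).two_le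
    have h3 : p ^ 1 ≤ p ^ m := Nat.pow_le_pow_right (by omega) hm
    rw [pow_one] at h3
    exact ⟨p ^ m - 2, by omega⟩
  have h4 : ⁅x, y⁆ = ((LieAlgebra.ad F L x) ^ n) ⁅x, ⁅x, y⁆⁆ :=
    calc ⁅x, y⁆ = ((LieAlgebra.ad F L x) ^ (p ^ m)) y := by rw [hxm]; rfl
      _ = ((LieAlgebra.ad F L x) ^ (n + 2)) y := by rw [hn]
      _ = ((LieAlgebra.ad F L x) ^ n) ⁅x, ⁅x, y⁆⁆ := by
        rw [pow_add, Module.End.mul_apply, pow_two, Module.End.mul_apply]
        rfl
  rw [h4]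
  refine pow_mem K x (hK x hx) n _ ?_
  have h6 := h1 x hx y hy x hx
  rw [← lie_skew]
  exact K.neg_mem h6

end PerH
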