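import Pool.Agent.Lib.PerH.ResFin

set_option autoImplicit false

/-!
# Residual finiteness of finitely generated modules over finitely generated commutative rings
-/

namespace PerH

universe u v

/-- A nonzero element killed by `p` of a finitely generated module over a finitely generated
commutative ring survives in a finite quotient `M / I M`. -/
theorem resfin_int (p : ℕ) [Fact p.Prime] (R : Type u) [CommRing R]
    [Algebra.FiniteType ℤ R] (M : Type v) [AddCommGroup M] [Module R M] [Module.Finite R M]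
    (m : M) (hm : m ≠ 0) (hpm : (p : R) • m = 0) :
    ∃ I : Ideal R, m ∉ (I • ⊤ : Submodule R M) ∧ Finite (M ⧸ (I • ⊤ : Submodule R M)) := by
  have : IsNoetherianRing R := Algebra.FiniteType.isNoetherianRing ℤ R
  have hann : Ideal.torsionOf R M m ≠ ⊤ := by
    intro h
    apply hm
    have h1 : (1 : R) ∈ Ideal.torsionOf R M m := by rw [h]; trivial
    rw [Ideal.mem_torsionOf_iff, one_smul] at h1
    exact h1
  obtain ⟨𝔪, h𝔪, hle⟩ := Ideal.exists_le_maximal _ hann
  have hnot : m ∉ (⨅ i : ℕ, 𝔪 ^ i • ⊤ : Submodule R M) := by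
    intro h
    rw [Ideal.mem_iInf_smul_pow_eq_bot_iff] at h
    obtain ⟨r, hr⟩ := h
    have h1 : (1 - (r : R)) ∈ Ideal.torsionOf R M m := by
      rw [Ideal.mem_torsionOf_iff, sub_smul, one_smul, hr, sub_self]
    have h2 : (1 : R) ∈ 𝔪 := by
      have := 𝔪.add_mem (hle h1) r.2
      simpa using this
    exact h𝔪.ne_top ((Ideal.eq_top_iff_one _).mpr h2)
  rw [Submodule.mem_iInf] at hnot
  push Not at hnot
  obtain ⟨k, hk⟩ := hnot
  refine ⟨𝔪 ^ k, hk, ?_⟩
  have hp𝔪 : (p : R) ∈ 𝔪 := hle ((Ideal.mem_torsionOf_iff m (p : R)).2 hpm)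
  have hfin : Finite (R ⧸ 𝔪) := by
    letI : Field (R ⧸ 𝔪) := Ideal.Quotient.field 𝔪
    have h0 : ((p : ℕ) : R ⧸ 𝔪) = 0 := by
      rw [← map_natCast (Ideal.Quotient.mk 𝔪)]
      exact Ideal.Quotient.eq_zero_iff_mem.2 hp𝔪
    haveI : CharP (R ⧸ 𝔪) p := (CharP.charP_iff_prime_eq_zero (Fact.out : p.Prime)).2 h0
    letI : Algebra (ZMod p) (R ⧸ 𝔪) := ZMod.algebra _ p
    haveI : Algebra.FiniteType ℤ (R ⧸ 𝔪) := inferInstance
    haveI : Algebra.FiniteType (ZMod p) (R ⧸ 𝔪) :=
      Algebra.FiniteType.of_restrictScalars_finiteType ℤ (ZMod p) (R ⧸ 𝔪)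
    haveI : Module.Finite (ZMod p) (R ⧸ 𝔪) :=
      finite_of_finite_type_of_isJacobsonRing (ZMod p) (R ⧸ 𝔪)
    exact Module.finite_of_finite (ZMod p)
  have : Finite (R ⧸ 𝔪 ^ k) := Ideal.finite_quotient_pow (IsNoetherian.noetherian 𝔪) k
  have : Finite (M ⧸ (⊤ : Submodule R M)) := inferInstance
  exact Submodule.finite_quotient_smul _ Module.Finite.fg_top

end PerH
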