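import Pool.Agent.Lib.PerH.Core
import Pool.Agent.Lib.PerH.ResFinInt

set_option autoImplicit false

/-!
# Periodic Lie algebras have no linear images which are not abelian
-/

namespace PerH

open Module PerE

universe u v w w'

section Rep

variable {L : Type v} [LieRing L] {C : Type w} [CommRing C] {M : Type w'} [AddCommGroup M]
  [Module C M]

/-- the elements of `P` which map `A` to `B` -/
def stb {P : AddSubgroup L} (ρ : P →+ Module.End C M) (A B : AddSubgroup M) : AddSubgroup L where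
  carrier := {z | ∃ hz : z ∈ P, ∀ m ∈ A, ρ ⟨z, hz⟩ m ∈ B}
  add_mem' := by
    rintro a b ⟨ha, ha'⟩ ⟨hb, hb'⟩
    refine ⟨P.add_mem ha hb, fun m hm => ?_⟩
    have e : (⟨a + b, P.add_mem ha hb⟩ : P) = ⟨a, ha⟩ + ⟨b, hb⟩ := rfl
    rw [e, map_add, LinearMap.add_apply]
    exact B.add_mem (ha' m hm) (hb' m hm)
  zero_mem' := by
    refine ⟨P.zero_mem, fun m _ => ?_⟩
    have e : (⟨0, P.zero_mem⟩ : P) = 0 := rfl
    rw [e, map_zero, LinearMap.zero_apply]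
    exact B.zero_mem
  neg_mem' := by
    rintro a ⟨ha, ha'⟩
    refine ⟨P.neg_mem ha, fun m hm => ?_⟩
    have e : (⟨-a, P.neg_mem ha⟩ : P) = -⟨a, ha⟩ := rfl
    rw [e, map_neg, LinearMap.neg_apply]
    exact B.neg_mem (ha' m hm)

theorem mem_stb {P : AddSubgroup L} {ρ : P →+ Module.End C M} {A B : AddSubgroup M} {z : L} :
    z ∈ stb ρ A B ↔ ∃ hz : z ∈ P, ∀ m ∈ A, ρ ⟨z, hz⟩ m ∈ B := Iff.rfl

variable {p : ℕ} [Fact p.Prime] [LieAlgebra (ZMod p) L]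

theorem rep_core (h : Per p (ZMod p) L) (P : AddSubgroup L)
    (hP : ∀ x ∈ P, ∀ y ∈ P, ⁅x, y⁆ ∈ P) (ρ : P →+ Module.End C M)
    (hρ : ∀ x y : P, ρ ⟨⁅(x : L), (y : L)⁆, hP x x.2 y y.2⟩ = ρ x * ρ y - ρ y * ρ x)
    (A B : AddSubgroup M) (hBA : B ≤ A) (S : Set M) (hSf : S.Finite) (hSA : ∀ s ∈ S, s ∈ A)
    (hS : ∀ a ∈ A, ∃ s ∈ S, a - s ∈ B) (x y : P)
    (hxA : ∀ m ∈ A, ρ x m ∈ A) (hxB : ∀ m ∈ B, ρ x m ∈ B)
    (hyA : ∀ m ∈ A, ρ y m ∈ A) (hyB : ∀ m ∈ B, ρ y m ∈ B) :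
    ∀ m ∈ A, ρ ⟨⁅(x : L), (y : L)⁆, hP x x.2 y y.2⟩ m ∈ B := by
  classical
  have hbr : ∀ u v : L, ∀ (hu : u ∈ P) (hv : v ∈ P) (m : M), ρ ⟨⁅u, v⁆, hP u hu v hv⟩ m =
      ρ ⟨u, hu⟩ (ρ ⟨v, hv⟩ m) - ρ ⟨v, hv⟩ (ρ ⟨u, hu⟩ m) := by
    intro u v hu hv m
    have := hρ ⟨u, hu⟩ ⟨v, hv⟩
    rw [this, LinearMap.sub_apply, Module.End.mul_apply, Module.End.mul_apply]
  let P1 : LieSubalgebra (ZMod p) L :=
    { AddSubgroup.toZModSubmodule p (stb ρ A A ⊓ stb ρ B B) with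
      lie_mem' := by
        rintro u v ⟨⟨hu, huA⟩, ⟨_, huB⟩⟩ ⟨⟨hv, hvA⟩, ⟨_, hvB⟩⟩
        refine ⟨⟨hP u hu v hv, fun m hm => ?_⟩, ⟨hP u hu v hv, fun m hm => ?_⟩⟩
        · rw [hbr u v hu hv]
          exact A.sub_mem (huA _ (hvA m hm)) (hvA _ (huA m hm))
        · rw [hbr u v hu hv]
          exact B.sub_mem (huB _ (hvB m hm)) (hvB _ (huB m hm)) }
  let K1 : Submodule (ZMod p) L := AddSubgroup.toZModSubmodule p (stb ρ A B)
  have hmP1 : ∀ u : L, u ∈ P1 ↔ u ∈ stb ρ A A ∧ u ∈ stb ρ B B := fun u => Iff.rfl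
  have hmK1 : ∀ u : L, u ∈ K1 ↔ u ∈ stb ρ A B := fun u => Iff.rfl
  have hK : ∀ u ∈ P1, ∀ v ∈ K1, ⁅u, v⁆ ∈ K1 := by
    intro u hu v hv
    obtain ⟨⟨hu, huA⟩, ⟨_, huB⟩⟩ := (hmP1 u).1 hu
    obtain ⟨hv, hvA⟩ := (hmK1 v).1 hv
    refine (hmK1 _).2 ⟨hP u hu v hv, fun m hm => ?_⟩
    rw [hbr u v hu hv]
    exact B.sub_mem (huB _ (hvA m hm)) (hvA _ (huA m hm))
  have hfin : Finite (P1.toSubmodule.map K1.mkQ) := by
    choose! rep hrep1 hrep2 using hS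
    have hSfin : Finite S := hSf
    have hz : ∀ w : P1.toSubmodule.map K1.mkQ, ∃ z : L, z ∈ P1 ∧ K1.mkQ z = w := by
      rintro ⟨_, z, hz, rfl⟩
      exact ⟨z, hz, rfl⟩
    choose g hg1 hg2 using hz
    have hgP : ∀ w, g w ∈ P := fun w => ((hmP1 _).1 (hg1 w)).1.1
    have hgA : ∀ w, ∀ m ∈ A, ρ ⟨g w, hgP w⟩ m ∈ A := fun w => ((hmP1 _).1 (hg1 w)).1.2
    have hgB : ∀ w, ∀ m ∈ B, ρ ⟨g w, hgP w⟩ m ∈ B := fun w => ((hmP1 _).1 (hg1 w)).2.2
    refine Finite.of_injective (fun w (s : S) => (⟨rep (ρ ⟨g w, hgP w⟩ s),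
      hrep1 _ (hgA w s (hSA s s.2))⟩ : S)) ?_
    intro w w' hww
    have h1 : ∀ s ∈ S, ρ ⟨g w, hgP w⟩ s - ρ ⟨g w', hgP w'⟩ s ∈ B := by
      intro s hs
      have h2 := congrArg Subtype.val (congrFun hww ⟨s, hs⟩)
      have h3 := hrep2 _ (hgA w s (hSA s hs))
      have h4 := hrep2 _ (hgA w' s (hSA s hs))
      change rep (ρ ⟨g w, hgP w⟩ s) = rep (ρ ⟨g w', hgP w'⟩ s) at h2
      rw [h2] at h3
      have h5 := B.sub_mem h3 h4
      rwa [sub_sub_sub_cancel_right] at h5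
    have h6 : g w - g w' ∈ K1 := by
      refine (hmK1 _).2 ⟨P.sub_mem (hgP w) (hgP w'), fun m hm => ?_⟩
      have e : (⟨g w - g w', P.sub_mem (hgP w) (hgP w')⟩ : P) = ⟨g w, hgP w⟩ - ⟨g w', hgP w'⟩ :=
        rfl
      rw [e, map_sub, LinearMap.sub_apply]
      have h7 := h1 (rep m) (hrep1 m hm)
      have h8 := B.sub_mem (hgB w _ (hrep2 m hm)) (hgB w' _ (hrep2 m hm))
      have h9 := B.add_mem h8 h7
      rw [map_sub, map_sub] at h9
      have e2 : ρ ⟨g w, hgP w⟩ m - ρ ⟨g w, hgP w⟩ (rep m) -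
          (ρ ⟨g w', hgP w'⟩ m - ρ ⟨g w', hgP w'⟩ (rep m)) +
          (ρ ⟨g w, hgP w⟩ (rep m) - ρ ⟨g w', hgP w'⟩ (rep m)) =
          ρ ⟨g w, hgP w⟩ m - ρ ⟨g w', hgP w'⟩ m := by abel
      rwa [e2] at h9
    have h10 : K1.mkQ (g w) = K1.mkQ (g w') := by
      rw [← sub_eq_zero, ← map_sub]
      exact (Submodule.Quotient.mk_eq_zero K1).2 h6
    apply Subtype.ext
    rw [← hg2, ← hg2, h10]
  have hfd : FiniteDimensional (ZMod p) (P1.toSubmodule.map K1.mkQ) := inferInstance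
  have hx1 : (x : L) ∈ P1 := (hmP1 _).2 ⟨⟨x.2, hxA⟩, ⟨x.2, hxB⟩⟩
  have hy1 : (y : L) ∈ P1 := (hmP1 _).2 ⟨⟨y.2, hyA⟩, ⟨y.2, hyB⟩⟩
  have hfinal := core h P1 K1 hK hfd x hx1 y hy1
  obtain ⟨_, h2⟩ := (hmK1 _).1 hfinal
  exact h2

/-- the theorem over the prime field -/
theorem lin_zmod (h : Per p (ZMod p) L) (P : AddSubgroup L)
    (hP : ∀ x ∈ P, ∀ y ∈ P, ⁅x, y⁆ ∈ P) (ρ : P →+ Module.End C M)
    (hρ : ∀ x y : P, ρ ⟨⁅(x : L), (y : L)⁆, hP x x.2 y y.2⟩ = ρ x * ρ y - ρ y * ρ x)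
    (x y : P) (M0 : Submodule C M) (hfg : M0.FG) (hx : ∀ m ∈ M0, ρ x m ∈ M0)
    (hy : ∀ m ∈ M0, ρ y m ∈ M0) :
    ∀ m ∈ M0, ρ ⟨⁅(x : L), (y : L)⁆, hP x x.2 y y.2⟩ m = 0 := by
  classical
  intro m hm
  by_contra hcon
  obtain ⟨n, s, hs⟩ := Submodule.fg_iff_exists_fin_generating_family.1 hfg
  have hmem : ∀ t ∈ M0, ∃ c : Fin n → C, ∑ i, c i • s i = t := fun t ht => by
    rw [← hs] at ht
    exact (Submodule.mem_span_range_iff_exists_fun C).1 ht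
  have hsj : ∀ j, s j ∈ M0 := fun j => by
    rw [← hs]
    exact Submodule.subset_span ⟨j, rfl⟩
  choose X hX using fun j => hmem (ρ x (s j)) (hx _ (hsj j))
  choose Y hY using fun j => hmem (ρ y (s j)) (hy _ (hsj j))
  obtain ⟨c, hc⟩ := hmem m hm
  let T : Set C := Set.range (fun q : Fin n × Fin n => X q.1 q.2) ∪
    Set.range (fun q : Fin n × Fin n => Y q.1 q.2) ∪ Set.range c
  have hT : T.Finite :=
    ((Set.finite_range _).union (Set.finite_range _)).union (Set.finite_range _)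
  let R : Subalgebra ℤ C := Algebra.adjoin ℤ T
  have hRX : ∀ j i, X j i ∈ R := fun j i =>
    Algebra.subset_adjoin (Or.inl (Or.inl ⟨(j, i), rfl⟩))
  have hRY : ∀ j i, Y j i ∈ R := fun j i =>
    Algebra.subset_adjoin (Or.inl (Or.inr ⟨(j, i), rfl⟩))
  have hRc : ∀ i, c i ∈ R := fun i => Algebra.subset_adjoin (Or.inr ⟨i, rfl⟩)
  have hFG : R.FG := Subalgebra.fg_def.2 ⟨T, hT, rfl⟩
  haveI : Algebra.FiniteType ℤ R := (Subalgebra.fg_iff_finiteType R).1 hFG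
  let M1 : Submodule R M := Submodule.span R (Set.range s)
  haveI : Module.Finite R M1 := Module.Finite.span_of_finite R (Set.finite_range s)
  have hcomb : ∀ a : Fin n → C, (∀ i, a i ∈ R) → ∑ i, a i • s i ∈ M1 := by
    intro a ha
    refine Submodule.sum_mem _ fun i _ => ?_
    have e : a i • s i = (⟨a i, ha i⟩ : R) • s i := rfl
    rw [e]
    exact M1.smul_mem _ (Submodule.subset_span ⟨i, rfl⟩)
  have hsmul : ∀ (f : Module.End C M) (r : R) (t : M), f (r • t) = r • f t := by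
    intro f r t
    change f ((r : C) • t) = (r : C) • f t
    rw [map_smul]
  have hstab : ∀ f : Module.End C M, (∀ j, f (s j) ∈ M1) → ∀ t ∈ M1, f t ∈ M1 := by
    intro f hf t ht
    induction ht using Submodule.span_induction with
    | mem t ht =>
      obtain ⟨j, rfl⟩ := ht
      exact hf j
    | zero =>
      rw [map_zero]
      exact M1.zero_mem
    | add a b _ _ ha hb =>
      rw [map_add]
      exact M1.add_mem ha hb
    | smul r a _ ha =>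
      rw [hsmul]
      exact M1.smul_mem r ha
  have hxM : ∀ t ∈ M1, ρ x t ∈ M1 := hstab _ fun j => by
    rw [← hX j]
    exact hcomb _ (hRX j)
  have hyM : ∀ t ∈ M1, ρ y t ∈ M1 := hstab _ fun j => by
    rw [← hY j]
    exact hcomb _ (hRY j)
  have hmM : m ∈ M1 := by
    rw [← hc]
    exact hcomb _ hRc
  have hbm : ρ ⟨⁅(x : L), (y : L)⁆, hP x x.2 y y.2⟩ m ∈ M1 := by
    rw [hρ, LinearMap.sub_apply, Module.End.mul_apply, Module.End.mul_apply]
    exact M1.sub_mem (hxM _ (hyM _ hmM)) (hyM _ (hxM _ hmM))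
  have hpb : ((p : R) • (⟨_, hbm⟩ : M1)) = 0 := by
    apply Subtype.ext
    change ((p : R) : C) • ρ ⟨⁅(x : L), (y : L)⁆, hP x x.2 y y.2⟩ m = 0
    have e1 : ((p : R) : C) = (p : C) := by simp
    rw [e1, Nat.cast_smul_eq_nsmul, ← LinearMap.smul_apply, ← map_nsmul]
    have e2 : p • (⟨⁅(x : L), (y : L)⁆, hP x x.2 y y.2⟩ : P) = 0 := by
      apply Subtype.ext
      change p • ⁅(x : L), (y : L)⁆ = 0
      rw [← Nat.cast_smul_eq_nsmul (ZMod p), ZMod.natCast_self, zero_smul]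
    rw [e2, map_zero, LinearMap.zero_apply]
  obtain ⟨I, hI, hfin⟩ := resfin_int p R M1 ⟨_, hbm⟩
    (fun h0 => hcon (congrArg Subtype.val h0)) hpb
  have hmap : (I • ⊤ : Submodule R M1).map M1.subtype = I • M1 := by
    rw [Submodule.map_smul'', Submodule.map_top, Submodule.range_subtype]
  have hIM : ∀ f : Module.End C M, (∀ t ∈ M1, f t ∈ M1) → ∀ t ∈ I • M1, f t ∈ I • M1 := by
    intro f hf t ht
    refine Submodule.smul_induction_on ht (fun r hr a ha => ?_) (fun a b ha hb => ?_)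
    · rw [hsmul]
      exact Submodule.smul_mem_smul hr (hf a ha)
    · rw [map_add]
      exact (I • M1).add_mem ha hb
  have hle : I • M1 ≤ M1 := Submodule.smul_le_right
  choose g hg using fun q : M1 ⧸ (I • ⊤ : Submodule R M1) => Submodule.Quotient.mk_surjective _ q
  have hfinal := rep_core h P hP ρ hρ M1.toAddSubgroup (I • M1).toAddSubgroup hle
    (Set.range fun q => (g q : M)) (Set.finite_range _)
    (by
      rintro _ ⟨q, rfl⟩
      exact (g q).2)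
    (by
      intro a ha
      refine ⟨_, ⟨Submodule.Quotient.mk ⟨a, ha⟩, rfl⟩, ?_⟩
      have h1 := hg (Submodule.Quotient.mk ⟨a, ha⟩)
      have h2 : (⟨a, ha⟩ : M1) - g (Submodule.Quotient.mk ⟨a, ha⟩) ∈ (I • ⊤ : Submodule R M1) := by
        rw [← Submodule.Quotient.mk_eq_zero, Submodule.Quotient.mk_sub, h1, sub_self]
      have h3 := Submodule.mem_map_of_mem (f := M1.subtype) h2
      rw [hmap] at h3
      exact h3)
    x y hxM (hIM _ hxM) hyM (hIM _ hyM) m hmM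
  apply hI
  have h1 : ρ ⟨⁅(x : L), (y : L)⁆, hP x x.2 y y.2⟩ m ∈
      (I • ⊤ : Submodule R M1).map M1.subtype := by
    rw [hmap]
    exact hfinal
  obtain ⟨t, ht, hte⟩ := h1
  have h2 : t = ⟨_, hbm⟩ := Subtype.ext hte
  rw [← h2]
  exact ht

end Rep

/-- the theorem -/
theorem lin {p : ℕ} [Fact p.Prime] {F : Type u} [Field F] [CharP F p] {L : Type v} [LieRing L]
    [LieAlgebra F L] (h : Per p F L) {C : Type w} [CommRing C] {M : Type w'}
    [AddCommGroup M] [Module C M] (P : AddSubgroup L) (hP : ∀ x ∈ P, ∀ y ∈ P, ⁅x, y⁆ ∈ P)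
    (ρ : P →+ Module.End C M)
    (hρ : ∀ x y : P, ρ ⟨⁅(x : L), (y : L)⁆, hP x x.2 y y.2⟩ = ρ x * ρ y - ρ y * ρ x)
    (x y : P) (M0 : Submodule C M) (hfg : M0.FG) (hx : ∀ m ∈ M0, ρ x m ∈ M0)
    (hy : ∀ m ∈ M0, ρ y m ∈ M0) :
    ∀ m ∈ M0, ρ ⟨⁅(x : L), (y : L)⁆, hP x x.2 y y.2⟩ m = 0 := by
  letI : Algebra (ZMod p) F := ZMod.algebra F p
  letI : Module (ZMod p) L := Module.compHom L (algebraMap (ZMod p) F)
  letI : LieAlgebra (ZMod p) L :=
    { lie_smul := fun c a b => lie_smul (algebraMap (ZMod p) F c) a b }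
  have hpow : ∀ (a : L) (k : ℕ) (z : L), ((LieAlgebra.ad (ZMod p) L a) ^ k) z =
      ((LieAlgebra.ad F L a) ^ k) z := by
    intro a k
    induction k with
    | zero => intro z; simp
    | succ k ih =>
      intro z
      rw [pow_succ, pow_succ, Module.End.mul_apply, Module.End.mul_apply, ih]
      rfl
  have hper : Per p (ZMod p) L := by
    constructor
    · intro a
      obtain ⟨b, hb⟩ := h.cl a
      refine ⟨b, LinearMap.ext fun z => ?_⟩
      rw [hpow, hb]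
      rfl
    · intro a
      obtain ⟨m, hm, hmp⟩ := h.per a
      refine ⟨m, hm, LinearMap.ext fun z => ?_⟩
      rw [hpow, hmp]
      rfl
  exact lin_zmod hper P hP ρ hρ x y M0 hfg hx hy

/-- finite dimensional quotients of subalgebras -/
theorem sect {p : ℕ} [Fact p.Prime] {F : Type u} [Field F] [CharP F p] {L : Type v} [LieRing L]
    [LieAlgebra F L] (h : Per p F L) (P : LieSubalgebra F L) (K : LieIdeal F P)
    (hfin : FiniteDimensional F (P ⧸ K)) (x y : P) : ⁅x, y⁆ ∈ K := by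
  let K' : Submodule F L := K.toSubmodule.map P.toSubmodule.subtype
  have hK : ∀ u ∈ P, ∀ v ∈ K', ⁅u, v⁆ ∈ K' := by
    rintro u hu _ ⟨v, hv, rfl⟩
    exact ⟨⁅(⟨u, hu⟩ : P), v⁆, K.lie_mem hv, rfl⟩
  have hf : FiniteDimensional F (P.toSubmodule.map K'.mkQ) := by
    let f : P →ₗ[F] (P ⧸ K.toSubmodule) := K.toSubmodule.mkQ
    let g : P →ₗ[F] (L ⧸ K') := K'.mkQ ∘ₗ P.toSubmodule.subtype
    have hle : LinearMap.ker f ≤ LinearMap.ker g := by
      intro v hv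
      have h1 : v ∈ K.toSubmodule := (Submodule.Quotient.mk_eq_zero _).1 (LinearMap.mem_ker.1 hv)
      rw [LinearMap.mem_ker]
      exact (Submodule.Quotient.mk_eq_zero _).2 ⟨v, h1, rfl⟩
    have hq : FiniteDimensional F (P ⧸ K.toSubmodule) := hfin
    have hf' : FiniteDimensional F (LinearMap.range f) := inferInstance
    have hg := fd_of_ker_le f g hle hf'
    have e : LinearMap.range g = P.toSubmodule.map K'.mkQ := by
      rw [LinearMap.range_comp, Submodule.range_subtype]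
    rw [← e]
    exact hg
  obtain ⟨v, hv, hve⟩ := core h P K' hK hf x x.2 y y.2
  have e : v = ⁅x, y⁆ := Subtype.ext hve
  rw [← e]
  exact hv

end PerH
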